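import Pool.Agent.Y604.QF.SNPoly

/-!
Testing an upper bound on the spectral norm of a 3-tensor is complete for the complement of the
existential theory of the reals, and the complementary problem is complete for the existential
theory of the reals.
-/

open Pool.Agent.NPC Pool.Agent.NPC.ER

theorem Pool.Agent.Results.MP_50cd9e_lc.SpectralComplete.result :
    ARComplete (lang Pool.Agent.Y604.QF.SpectralNormBound) ∧
      ERComplete (lang Pool.Agent.Y604.QF.SpectralNormExceed) :=
  Pool.Agent.NPC.Y604QF.spectral_complete
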